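import Pool.Agent.H73.HR.Binary

/-!
# MP_a31ff1_nt: an explicit lower bound for a binary form `Υ`

Let `Υ = υ (t₁ - t₂)`. If `Φ` has `h` variables and the coefficients of `Φ` have absolute value at
most `K`, then every modulus with property `(Υ, Φ, ε)` exceeds `(1/ε) ^ (2 ^ h) / K ^ (2 ^ h - 1)`.
-/

set_option autoImplicit false

open Finset Pool.Agent.H73.HR
open scoped Pointwise

namespace Pool.Agent.Results.MP_a31ff1_nt.BinaryLower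

theorem surj {υ : Fin 2 → ℤ} (h0 : υ 0 + υ 1 = 0) {m : ℕ} [NeZero m] {A : Set (ZMod m)}
    (hA : im υ A = Set.univ) : ∃ B : Finset (ZMod m), (B : Set (ZMod m)) = A ∧
      B.Nonempty ∧ B - B = Finset.univ := by
  classical
  have hfin : A.Finite := Set.toFinite A
  obtain ⟨B, hB⟩ : ∃ B : Finset (ZMod m), (B : Set (ZMod m)) = A :=
    ⟨hfin.toFinset, hfin.coe_toFinset⟩
  subst hB
  have key : ∀ x : ZMod m, ∃ a ∈ B, ∃ b ∈ B, x = υ 0 • (a - b) := by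
    intro x
    have hx : x ∈ im υ (B : Set (ZMod m)) := by rw [hA]; trivial
    obtain ⟨a, ha, rfl⟩ := hx
    refine ⟨a 0, ha 0, a 1, ha 1, ?_⟩
    have h1 : υ 1 = -υ 0 := by omega
    rw [Fin.sum_univ_two, h1, neg_smul, smul_sub]
    ring
  refine ⟨B, rfl, ?_, ?_⟩
  · obtain ⟨a, ha, _⟩ := key 0
    exact ⟨a, ha⟩
  · obtain ⟨a, ha, b, hb, hab⟩ := key 1
    refine Finset.eq_univ_of_forall fun x => ?_
    obtain ⟨c, hc, d, hd, hcd⟩ := key (υ 0 • x)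
    have h2 : (a - b) * (υ 0 : ZMod m) = 1 := by
      rw [hab, zsmul_eq_mul, mul_comm]
    have h3 : x = c - d := by
      rw [zsmul_eq_mul, zsmul_eq_mul] at hcd
      calc x = (a - b) * (υ 0 : ZMod m) * x := by rw [h2, one_mul]
        _ = (a - b) * ((υ 0 : ZMod m) * x) := by ring
        _ = (a - b) * ((υ 0 : ZMod m) * (c - d)) := by rw [hcd]
        _ = (a - b) * (υ 0 : ZMod m) * (c - d) := by ring
        _ = c - d := by rw [h2, one_mul]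
    rw [h3]
    exact Finset.sub_mem_sub hc hd

/-- **The binary case.** -/
theorem result :
    ∀ (h : ℕ) (υ : Fin 2 → ℤ) (φ : Fin h → ℤ) (K : ℕ), υ 0 + υ 1 = 0 →
      (∀ i, φ i ≠ 0) → (∀ i, |φ i| ≤ K) →
      (∀ m : ℕ, 0 < m → ∀ A : Set (ZMod m), im υ A = Set.univ →
        m ^ (2 ^ h - 1) ≤ K ^ (2 ^ h - 1) * (im φ A).ncard ^ (2 ^ h)) ∧
      ∀ ε : ℝ, 0 < ε → ∀ m : ℕ, HasProp υ φ ε m →
        (1 / ε) ^ (2 ^ h) < (K : ℝ) ^ (2 ^ h - 1) * m := by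
  intro h υ φ K h0 hφ hK
  have key : ∀ m : ℕ, 0 < m → ∀ A : Set (ZMod m), im υ A = Set.univ →
      m ^ (2 ^ h - 1) ≤ K ^ (2 ^ h - 1) * (im φ A).ncard ^ (2 ^ h) := by
    intro m hm A hA
    have hne : NeZero m := ⟨hm.ne'⟩
    obtain ⟨B, rfl, hB1, hB2⟩ := surj h0 hA
    refine chain B hB1 m K h φ fun i => ?_
    rw [hB2]
    have h1 := hK i
    rw [Int.abs_eq_natAbs] at h1
    exact card_multiples (hφ i) (by exact_mod_cast h1)
  refine ⟨key, ?_⟩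
  intro ε hε m hm
  obtain ⟨hm0, A, hA, hc⟩ := hm
  have h1 := key m hm0 A hA
  have h2 : ((m : ℝ)) ^ (2 ^ h - 1) ≤ (K : ℝ) ^ (2 ^ h - 1) * ((im φ A).ncard : ℝ) ^ (2 ^ h) := by
    exact_mod_cast h1
  have hmR : (0 : ℝ) < m := by exact_mod_cast hm0
  have h3 : ((im φ A).ncard : ℝ) ^ (2 ^ h) < (ε * m) ^ (2 ^ h) :=
    pow_lt_pow_left₀ hc (Nat.cast_nonneg _) (by positivity)
  have h4 : 2 ^ h = (2 ^ h - 1) + 1 := by
    have : 1 ≤ 2 ^ h := Nat.one_le_two_pow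
    omega
  have hKpos : (0 : ℝ) < (K : ℝ) ^ (2 ^ h - 1) := by
    by_contra hle
    have h5 : (K : ℝ) ^ (2 ^ h - 1) * ((im φ A).ncard : ℝ) ^ (2 ^ h) ≤ 0 :=
      mul_nonpos_of_nonpos_of_nonneg (not_lt.mp hle) (by positivity)
    have h6 : (0 : ℝ) < (m : ℝ) ^ (2 ^ h - 1) := by positivity
    linarith
  have h5 : (m : ℝ) ^ (2 ^ h - 1) < (K : ℝ) ^ (2 ^ h - 1) * (ε * m) ^ (2 ^ h) :=
    lt_of_le_of_lt h2 (mul_lt_mul_of_pos_left h3 hKpos)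
  have h6 : (K : ℝ) ^ (2 ^ h - 1) * (ε * m) ^ (2 ^ h) =
      (m : ℝ) ^ (2 ^ h - 1) * ((K : ℝ) ^ (2 ^ h - 1) * ε ^ (2 ^ h) * m) := by
    have h7 : (m : ℝ) ^ (2 ^ h) = (m : ℝ) ^ (2 ^ h - 1) * m := by
      rw [← pow_succ, ← h4]
    rw [mul_pow, h7]
    ring
  rw [h6] at h5
  have h8 : 1 < (K : ℝ) ^ (2 ^ h - 1) * ε ^ (2 ^ h) * m := by
    have h9 : (0 : ℝ) < (m : ℝ) ^ (2 ^ h - 1) := by positivity
    exact (lt_mul_iff_one_lt_right h9).mp h5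
  rw [one_div, inv_pow, inv_lt_iff_one_lt_mul₀ (by positivity)]
  linarith

end Pool.Agent.Results.MP_a31ff1_nt.BinaryLower
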