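import Pool.Agent.H73.HR.Moduli

/-!
# MP_a31ff1_nt: the growth exponent of the least modulus

For forms `Υ`, `Φ` as in the problem let `θ = θ(Υ, Φ)` be the infimum of
`log |Φ(A)| / log |Υ(A)|` over the finite sets `A` of integers.  In `Z/mZ` the least size of `Φ(A)`,
over the sets `A` with `Υ(A) = Z/mZ`, is `m ^ (θ + o(1))`, and the least modulus is
`m(Υ, Φ, ε) = (1/ε) ^ (1 / (1 - θ) + o(1))` as `ε → 0`.
-/

set_option autoImplicit false

open Finset Filter Topology Pool.Agent.H73.HR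

namespace Pool.Agent.Results.MP_a31ff1_nt.GrowthExponent

theorem hasProp_mono {g h : ℕ} {υ : Fin g → ℤ} {φ : Fin h → ℤ} {ε ε' : ℝ} (hε : ε ≤ ε') {m : ℕ}
    (hm : HasProp υ φ ε m) : HasProp υ φ ε' m := by
  obtain ⟨h0, A, hA, hc⟩ := hm
  exact ⟨h0, A, hA, hc.trans_le (mul_le_mul_of_nonneg_right hε (Nat.cast_nonneg _))⟩

/-- **The growth exponent**, for the image in a given cyclic group and for the least modulus: `M ε`
is the least `m` such that `Z/mZ` has property `(Υ, Φ, ε)`. -/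
theorem result :
    ∀ (g h : ℕ) (υ : Fin g → ℤ) (φ : Fin h → ℤ), 0 < h → (∀ i, υ i ≠ 0) → (∀ i, φ i ≠ 0) →
      (∃ I : Finset (Fin g), I.Nonempty ∧ ∑ i ∈ I, υ i = 0) →
      (∀ J : Finset (Fin h), J.Nonempty → ∑ j ∈ J, φ j ≠ 0) →
      1 / (g : ℝ) ≤ theta υ φ ∧ theta υ φ < 1 ∧
      (∀ m : ℕ, 2 ≤ m → ∀ A : Set (ZMod m), im υ A = Set.univ →
        (m : ℝ) ^ theta υ φ ≤ (2 * ∑ i, |(φ i : ℝ)| + 1) * (im φ A).ncard) ∧
      (∀ δ : ℝ, 0 < δ → ∃ m₀ : ℕ, ∀ m : ℕ, m₀ ≤ m → (∃ i, IsCoprime (υ i) (m : ℤ)) →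
        ∃ A : Set (ZMod m), im υ A = Set.univ ∧
          ((im φ A).ncard : ℝ) ≤ (m : ℝ) ^ (theta υ φ + δ)) ∧
      ∃ M : ℝ → ℕ, (∀ ε : ℝ, 0 < ε → IsLeast {m : ℕ | HasProp υ φ ε m} (M ε)) ∧
        Tendsto (fun ε : ℝ => Real.log (M ε) / Real.log (1 / ε)) (𝓝[>] 0)
          (𝓝 (1 / (1 - theta υ φ))) := by
  intro g h υ φ hh hυ hφ0 h0 hφ
  obtain ⟨hb1, hb2⟩ := theta_bounds hh hυ hφ0 h0 hφ
  have hg : 0 < g := by
    obtain ⟨I, ⟨i, _⟩, _⟩ := h0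
    exact i.pos
  refine ⟨hb1, hb2, ?_, ?_, mm υ φ, ?_, limit hh hυ hφ0 h0 hφ⟩
  · intro m hm A hA
    obtain ⟨S, hS⟩ : ∃ S : ℕ, ∑ i, |φ i| = S :=
      ⟨(∑ i, |φ i|).toNat,
        (Int.toNat_of_nonneg (Finset.sum_nonneg fun i _ => abs_nonneg _)).symm⟩
    have hSR : ∑ i, |(φ i : ℝ)| = S := by
      have : ((∑ i, |φ i| : ℤ) : ℝ) = ((S : ℤ) : ℝ) := by rw [hS]
      push_cast at this
      exact this
    rw [hSR]
    exact lower_core (φ := φ) hg hS hm hA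
  · intro δ hδ
    have h1 := (tendsto_order.mp (limit_mu hh h0 hυ hφ)).2 (theta υ φ + δ) (by linarith)
    rw [eventually_inf_principal] at h1
    obtain ⟨m₀, hm₀⟩ := eventually_atTop.mp (h1.and (eventually_ge_atTop 2))
    refine ⟨m₀, fun m hm hgood => ?_⟩
    obtain ⟨h2, h3⟩ := hm₀ m hm
    obtain ⟨A, hA, hmu⟩ := mu_mem φ (υ := υ) hgood
    refine ⟨A, hA, ?_⟩
    have h4 := h2 hgood
    have hne : NeZero m := ⟨by omega⟩
    have hm1 : (1 : ℝ) < m := by exact_mod_cast h3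
    rw [div_lt_iff₀ (Real.log_pos hm1), hmu] at h4
    have hAne : A.Nonempty := nonempty_of_im hg (by rw [hA]; exact Set.univ_nonempty)
    have h5 : 1 ≤ (im φ A).ncard :=
      (Set.ncard_pos (Set.toFinite _)).mpr (im_nonempty (φ := φ) hAne)
    have h6 : (0 : ℝ) < (im φ A).ncard := by exact_mod_cast h5
    rw [Real.rpow_def_of_pos (by linarith), ← Real.log_le_iff_le_exp h6]
    linarith
  · intro ε hε
    obtain ⟨I, hI, hI0⟩ := h0
    obtain ⟨A, hA⟩ := exists_small hh hφ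
    have hlt : (im φ (A : Set ℤ)).ncard < (im υ (A : Set ℤ)).ncard :=
      lt_of_lt_of_le hA (diffs_le hυ hI hI0 A)
    have hAne : (A : Set ℤ).Nonempty := by
      refine nonempty_of_im hg (υ := υ) ?_
      rw [← Set.ncard_pos (im_finite' υ A)]
      omega
    have h1 : 1 ≤ (im φ (A : Set ℤ)).ncard :=
      (Set.ncard_pos (im_finite' φ A)).mpr (im_nonempty hAne)
    have h2 := eventually_upper (φ := φ) hυ ⟨0, hg⟩ A (by omega) hlt (lt_add_one _)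
    have h3 : ∀ᶠ ε' : ℝ in 𝓝[>] 0, ε' < ε :=
      (gt_mem_nhds hε).filter_mono nhdsWithin_le_nhds
    obtain ⟨ε', h4, h5⟩ := (h2.and h3).exists
    have h6 : HasProp υ φ ε (mm υ φ ε') := hasProp_mono h5.le h4.1
    exact ⟨Nat.sInf_mem (s := {m | HasProp υ φ ε m}) ⟨_, h6⟩, fun m hm => Nat.sInf_le hm⟩

end Pool.Agent.Results.MP_a31ff1_nt.GrowthExponent
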