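import Pool.Agent.H82.SZ.Dense
import Pool.Agent.H82.SZ.Classical

/-!
# MP_a31ff1_nt: the sizes of the sets with `Υ(A) = Z/mZ` and `|Φ(A)| < ε m`

Let `d` be the greatest common divisor of the coefficients of `Υ` and let `λ` be the infimum of
`log (|Υ(A)| / |A|) / log (|Υ(A)| / |Φ(A)|)` over the finite sets `A` of integers with
`|Φ(A)| < |Υ(A)|`.  If `m` is not prime to `d`, there is no such set in `Z/mZ`.  If `m` is prime to
`d`, then the set of the sizes `|A|` is contained in `[m ^ (1/g), ((2s + 1) ε) ^ λ m]` and contains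
all integers of `[C m ^ (1/g), ε ^ (λ + δ) m]`.  For differences and sums (`Υ = t₁ - t₂`,
`Φ = t₁ + t₂`) the exponent is `λ = 2`.
-/

set_option autoImplicit false

open Finset Pool.Agent.H73.HR Pool.Agent.H82.SZ

namespace Pool.Agent.Results.MP_a31ff1_nt.SizeSpectrum

/-- The set of the sizes of the sets `A` in `Z/mZ` with `Υ(A) = Z/mZ` and `|Φ(A)| < ε m`. -/
def sizeSet {g h : ℕ} (υ : Fin g → ℤ) (φ : Fin h → ℤ) (ε : ℝ) (m : ℕ) : Set ℕ :=
  {n | ∃ A : Set (ZMod m), im υ A = Set.univ ∧ ((im φ A).ncard : ℝ) < ε * m ∧ A.ncard = n}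

/-- **The size spectrum.** -/
theorem result :
    (∀ (g h : ℕ) (υ : Fin g → ℤ) (φ : Fin h → ℤ), 0 < h → (∀ i, υ i ≠ 0) → (∀ i, φ i ≠ 0) →
      (∃ I : Finset (Fin g), I.Nonempty ∧ ∑ i ∈ I, υ i = 0) →
      (∀ J : Finset (Fin h), J.Nonempty → ∑ j ∈ J, φ j ≠ 0) →
      1 ≤ lam υ φ ∧
      (∀ ε : ℝ, 0 < ε → ∀ m : ℕ, 0 < m → ∀ n ∈ sizeSet υ φ ε m,
        IsCoprime (Finset.univ.gcd υ) (m : ℤ) ∧ (m : ℝ) ^ (1 / (g : ℝ)) ≤ n ∧
          (n : ℝ) ≤ ((2 * ∑ i, |(φ i : ℝ)| + 1) * ε) ^ lam υ φ * m) ∧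
      (∀ δ : ℝ, 0 < δ → ∃ ε₀ : ℝ, 0 < ε₀ ∧ ∀ ε : ℝ, 0 < ε → ε < ε₀ →
        ∃ C : ℝ, 0 < C ∧ ∀ m : ℕ, 0 < m → IsCoprime (Finset.univ.gcd υ) (m : ℤ) →
          ∀ n : ℕ, C * (m : ℝ) ^ (1 / (g : ℝ)) ≤ n → (n : ℝ) ≤ ε ^ (lam υ φ + δ) * m →
            n ∈ sizeSet υ φ ε m)) ∧
    lam ![(1 : ℤ), -1] ![(1 : ℤ), 1] = 2 := by
  refine ⟨?_, lam_classical⟩
  intro g h υ φ hh hυ hφ0 h0 hφ
  have hg : 0 < g := by
    obtain ⟨I, ⟨i, _⟩, _⟩ := h0
    exact i.pos
  obtain ⟨S, hS⟩ : ∃ S : ℕ, ∑ i, |φ i| = S :=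
    ⟨(∑ i, |φ i|).toNat,
      (Int.toNat_of_nonneg (Finset.sum_nonneg fun i _ => abs_nonneg _)).symm⟩
  have hSR : ∑ i, |(φ i : ℝ)| = S := by
    have : ((∑ i, |φ i| : ℤ) : ℝ) = ((S : ℤ) : ℝ) := by rw [hS]
    push_cast at this
    exact this
  refine ⟨one_le_lam hh hυ hφ0 h0 hφ, ?_, ?_⟩
  · rintro ε hε m hm n ⟨A, hA, hc, rfl⟩
    have hne : NeZero m := ⟨hm.ne'⟩
    refine ⟨?_, ?_, ?_⟩
    · have h1 : (1 : ZMod m) ∈ im υ A := by rw [hA]; trivial
      obtain ⟨a, _, ha⟩ := h1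
      set d := Finset.univ.gcd υ with hd
      have h2 : ∀ i, ∃ c, υ i = d * c := fun i => Finset.gcd_dvd (Finset.mem_univ i)
      choose u hu using h2
      have h3 : ((d : ℤ) : ZMod m) * ∑ i, u i • a i = 1 := by
        rw [ha, Finset.mul_sum]
        refine Finset.sum_congr rfl fun i _ => ?_
        rw [hu i, mul_smul, ← zsmul_eq_mul]
      obtain ⟨y, hy⟩ := ZMod.intCast_surjective (∑ i, u i • a i)
      rw [← hy] at h3
      have h4 : ((d * y : ℤ) : ZMod m) = ((1 : ℤ) : ZMod m) := by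
        push_cast
        exact h3
      have h5 := (ZMod.intCast_eq_intCast_iff_dvd_sub _ _ m).mp h4
      obtain ⟨k, hk⟩ := h5
      exact ⟨y, k, by linarith⟩
    · have h1 : m ≤ A.ncard ^ g := by
        classical
        have hfin : A.Finite := Set.toFinite _
        have h2 : (Set.univ : Set (ZMod m)) ⊆
            ((Fintype.piFinset fun _ : Fin g => hfin.toFinset).image
              fun a => ∑ i, υ i • a i : Finset (ZMod m)) := by
          rw [← hA]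
          rintro x ⟨a, ha, rfl⟩
          rw [Finset.mem_coe]
          exact Finset.mem_image_of_mem _ (Fintype.mem_piFinset.mpr fun i =>
            (Set.Finite.mem_toFinset _).mpr (ha i))
        have h3 := Set.ncard_le_ncard h2 (Finset.finite_toSet _)
        rw [Set.ncard_coe_finset, Set.ncard_univ, Nat.card_zmod] at h3
        refine h3.trans (Finset.card_image_le.trans ?_)
        rw [Fintype.card_piFinset, Finset.prod_const, Finset.card_univ, Fintype.card_fin,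
          ← Set.ncard_eq_toFinset_card _ hfin]
      have hgR : (g : ℝ) ≠ 0 := by exact_mod_cast hg.ne'
      have h2 : (A.ncard : ℝ) = ((A.ncard : ℝ) ^ (g : ℝ)) ^ (1 / (g : ℝ)) := by
        rw [← Real.rpow_mul (by positivity), mul_one_div_cancel hgR, Real.rpow_one]
      rw [h2]
      apply Real.rpow_le_rpow (by positivity) ?_ (by positivity)
      rw [Real.rpow_natCast]
      exact_mod_cast h1
    · rw [hSR]
      exact size_le hh hυ hφ0 h0 hφ hS hε hm hA hc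
  · intro δ hδ
    obtain ⟨ε₀, hε₀, h1⟩ := exists_dense hh hυ hφ0 h0 hφ hδ S
    refine ⟨ε₀, hε₀, fun ε hε hεε => ?_⟩
    obtain ⟨N, B, hN, hB1, hB2, hB3⟩ := h1 ε hε hεε
    obtain ⟨C, hC, h2⟩ := core hg hυ h0 hS hN hB1 hB2
    refine ⟨C, hC, fun m hm hcop n hn1 hn2 => ?_⟩
    refine h2 m hm hcop n hn1 ?_
    have hmR : (0 : ℝ) < m := by exact_mod_cast hm
    have h3 : (2 * N * n : ℝ) ≤ B.ncard * m := by
      calc (2 * N * n : ℝ) ≤ 2 * N * (ε ^ (lam υ φ + δ) * m) :=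
            mul_le_mul_of_nonneg_left hn2 (by positivity)
        _ = (2 * ε ^ (lam υ φ + δ) * N) * m := by ring
        _ ≤ B.ncard * m := mul_le_mul_of_nonneg_right hB3 hmR.le
    exact_mod_cast h3

end Pool.Agent.Results.MP_a31ff1_nt.SizeSpectrum
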