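import Pool.Agent.H73.HR.Unary

/-!
# MP_a31ff1_nt: the order of magnitude of the least modulus for a unary form `Φ`

For `h = 1` and every `g`-ary form `Υ` as in the problem, `m(Υ, Φ, ε)` is of the exact order
`(1/ε) ^ (g / (g - 1))`.
-/

set_option autoImplicit false

open Finset Pool.Agent.H73.HR

namespace Pool.Agent.Results.MP_a31ff1_nt.UnaryOrder

/-- **The order of magnitude for `h = 1`.** -/
theorem result :
    ∀ (g : ℕ) (υ : Fin g → ℤ) (φ : Fin 1 → ℤ), (∀ i, υ i ≠ 0) → φ 0 ≠ 0 →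
      (∃ I : Finset (Fin g), I.Nonempty ∧ ∑ i ∈ I, υ i = 0) →
      ∃ c C : ℝ, 0 < c ∧ 0 < C ∧ ∀ ε : ℝ, 0 < ε → ε < 1 →
        ∃ m : ℕ, IsLeast {m : ℕ | HasProp υ φ ε m} m ∧
          c * (1 / ε) ^ ((g : ℝ) / (g - 1)) ≤ m ∧ m ≤ C * (1 / ε) ^ ((g : ℝ) / (g - 1)) := by
  intro g υ φ hυ hφ h0
  obtain ⟨c, C, hc, hC, h⟩ := order_unary hυ hφ h0
  refine ⟨c, C, hc, hC, fun ε hε hε1 => ?_⟩
  obtain ⟨h1, h2, h3⟩ := h ε hε hε1
  exact ⟨mm υ φ ε, ⟨h1, fun m hm => Nat.sInf_le hm⟩, h2, h3⟩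

end Pool.Agent.Results.MP_a31ff1_nt.UnaryOrder
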